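import Mathlib
import Pool.Agent.H9.PM.Rev

/-!
MP_f82ddf_nt, Q1: hyperbolicity implies that the sequences of rational points `x n` of small
exponential growth which have the period `p` modulo `p`, for many primes `p`, are constant; and this
property is equivalent to the absence of rational curves.
-/

set_option autoImplicit false

namespace Pool.Agent.Results.MP_f82ddf_nt.PeriodicModPrimes

open MvPolynomial Finset Filter NumberField Pool.Agent.TH143.HE
open Pool.Agent.H9.PM (exists_seq_cong eventually_periodic const_of_periodic infinite_of_dense hs)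

/-- The vector `x` is a common zero of the forms (homogeneous polynomials) in the ideal `I`. -/
def IsPoint {R A : Type} [CommRing R] [CommRing A] {N : ℕ} (φ : R →+* A)
    (I : Ideal (MvPolynomial (Fin (N + 1)) R)) (x : Fin (N + 1) → A) : Prop :=
  ∀ G ∈ I, (∃ d, G.IsHomogeneous d) → eval₂ φ x G = 0

section

variable {K : Type} [Field K] [NumberField K] {N : ℕ}

/-- All nonconstant entire curves in `X` lie in `Z`. Here `X` and `Z` are the projective varieties
given by the forms in `I` and in `I'`. For `I' = ⊤` the variety `Z` is empty, and this is the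
hyperbolicity of `X`. -/
def Hyperbolic (σ : K →+* ℂ) (I I' : Ideal (MvPolynomial (Fin (N + 1)) K)) : Prop :=
  ∀ f : ℂ → Fin (N + 1) → ℂ, (∀ j, Differentiable ℂ (fun z => f z j)) → (∀ z, f z ≠ 0) →
    (∀ z, IsPoint σ I (f z)) → (∃ z w i j, f z i * f w j ≠ f z j * f w i) → ∀ z, IsPoint σ I' (f z)

/-- All nonconstant maps from the projective line to `X`, over the complex numbers, have their image
in `Z`. -/
def RationalCurvesIn (σ : K →+* ℂ) (I I' : Ideal (MvPolynomial (Fin (N + 1)) K)) : Prop :=
  ∀ p : Fin (N + 1) → Polynomial ℂ, (∀ u, IsPoint σ I (fun j => (p j).eval u)) →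
    (∃ i j u v, (p i).eval u * (p j).eval v ≠ (p j).eval u * (p i).eval v) →
    ∀ u, IsPoint σ I' (fun j => (p j).eval u)

end

/-- The set `P` of primes is such that the product of its elements up to `m` is at least
`exp (γ m)`, for all large `m`. -/
def LogDense (γ : ℝ) (P : Set ℕ) : Prop :=
  (∀ p ∈ P, p.Prime) ∧
  open Classical in ∀ᶠ m : ℕ in atTop, γ * m ≤ ∑ p ∈ (range (m + 1)).filter (· ∈ P), Real.log p

/-- `a n` are integral homogeneous coordinates, over the number field `L`, of points of `X` outside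
of `Z`, and their common divisors divide the nonzero integer `q`. -/
structure Coords (K : Type) [Field K] (L : Type) [Field L] [Algebra K L] {N : ℕ}
    (I I' : Ideal (MvPolynomial (Fin (N + 1)) K)) (q : ℕ) (a : ℕ → Fin (N + 1) → 𝓞 L) : Prop where
  ne_zero : q ≠ 0
  content : ∀ n, (q : 𝓞 L) ∈ Ideal.span (Set.range (a n))
  mem : ∀ n, IsPoint (algebraMap K L) I (fun j => algebraMap (𝓞 L) L (a n j))
  not_mem : ∀ n, ¬ IsPoint (algebraMap K L) I' (fun j => algebraMap (𝓞 L) L (a n j))

/-- Modulo every prime `p` in `P`, the sequence of the points with the coordinates `a n` has the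
period `p`. -/
def PeriodicMod {L : Type} [Field L] {N : ℕ} (P : Set ℕ) (a : ℕ → Fin (N + 1) → 𝓞 L) : Prop :=
  ∀ p ∈ P, ∀ n i j, (p : 𝓞 L) ∣ a (n + p) i * a n j - a (n + p) j * a n i

/-- All the points with the coordinates `a n` are equal. -/
def AllEqual {L : Type} [Field L] {N : ℕ} (a : ℕ → Fin (N + 1) → 𝓞 L) : Prop :=
  ∀ m n i j, a m i * a n j = a m j * a n i

section

variable {K : Type} [Field K] [NumberField K] {N : ℕ}

/-- For all number fields `L` over `K`: a sequence of points of `X(L)` outside of `Z`, whose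
coordinates and all their conjugates are `O(exp (c n))` in absolute value, and which has the period
`p` modulo `p` for all `p` in a set `P` of primes with `LogDense γ P`, is constant. -/
def ConstantOfPeriodic (γ c : ℝ) (I I' : Ideal (MvPolynomial (Fin (N + 1)) K)) : Prop :=
  ∀ (L : Type) [Field L] [NumberField L] [Algebra K L] (P : Set ℕ) (q : ℕ) (C : ℝ)
    (a : ℕ → Fin (N + 1) → 𝓞 L), LogDense γ P → Coords K L I I' q a → PeriodicMod P a →
    (∀ n j, house (algebraMap (𝓞 L) L (a n j)) ≤ C * Real.exp (c * n)) → AllEqual a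

/-- The same for the set of all primes. -/
def ConstantOfPeriodicAll (c : ℝ) (I I' : Ideal (MvPolynomial (Fin (N + 1)) K)) : Prop :=
  ∀ (L : Type) [Field L] [NumberField L] [Algebra K L] (q : ℕ) (C : ℝ)
    (a : ℕ → Fin (N + 1) → 𝓞 L), Coords K L I I' q a → PeriodicMod {p | p.Prime} a →
    (∀ n j, house (algebraMap (𝓞 L) L (a n j)) ≤ C * Real.exp (c * n)) → AllEqual a

/-- The same for all moduli, and polynomial growth: a sequence of points `x n` of `X(L)` outside of
`Z`, of polynomial growth, such that `x m` and `x n` are equal modulo `m - n` for all `m` and `n`,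
is constant. -/
def ConstantOfPolynomial (I I' : Ideal (MvPolynomial (Fin (N + 1)) K)) : Prop :=
  ∀ (L : Type) [Field L] [NumberField L] [Algebra K L] (q A : ℕ) (C : ℝ)
    (a : ℕ → Fin (N + 1) → 𝓞 L), Coords K L I I' q a →
    (∀ (m n : ℕ) i j, (m : 𝓞 L) - n ∣ a m i * a n j - a m j * a n i) →
    (∀ n j, house (algebraMap (𝓞 L) L (a n j)) ≤ C * ((n : ℝ) + 1) ^ A) → AllEqual a

end

theorem primes_dense : LogDense (1 / 2) {p | p.Prime} := by
  classical
  refine ⟨fun p hp => hp, ?_⟩
  have hlog2 : (0.69 : ℝ) < Real.log 2 := by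
    have := Real.log_two_gt_d9
    linarith
  have h1 : ∀ᶠ m : ℕ in atTop, Real.log ((m : ℝ) + 1) + 2 * √(m : ℝ) * Real.log m ≤ 0.19 * m := by
    have hlin : (fun x : ℝ => Real.log (x + 1) + 2 * √x * Real.log x) =o[atTop] fun x => x := by
      refine Asymptotics.IsLittleO.add ?_ ?_
      · have h2 : (fun x : ℝ => Real.log (x + 1)) =o[atTop] fun x : ℝ => x + 1 :=
          Real.isLittleO_log_id_atTop.comp_tendsto (tendsto_atTop_add_const_right _ 1 tendsto_id)
        refine h2.trans_isBigO ?_
        refine Asymptotics.IsBigO.add (Asymptotics.isBigO_refl _ _) ?_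
        exact (Asymptotics.isLittleO_const_id_atTop (1 : ℝ)).isBigO
      · have h3 : (fun x : ℝ => Real.log x) =o[atTop] fun x : ℝ => x ^ (1 / 2 : ℝ) :=
          isLittleO_log_rpow_atTop (by norm_num)
        have h4 : (fun x : ℝ => 2 * √x) =O[atTop] fun x : ℝ => √x :=
          Asymptotics.isBigO_const_mul_self _ _ _
        have h5 := h4.mul_isLittleO h3
        refine h5.congr' (Eventually.of_forall fun x => rfl) ?_
        filter_upwards [eventually_ge_atTop 0] with x hx
        rw [← Real.sqrt_eq_rpow, Real.mul_self_sqrt hx]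
    have h6 := (hlin.bound (show (0 : ℝ) < 0.19 by norm_num))
    have h7 := tendsto_natCast_atTop_atTop (R := ℝ) |>.eventually h6
    filter_upwards [h7] with m hm
    rw [Real.norm_eq_abs, Real.norm_eq_abs, abs_of_nonneg (Nat.cast_nonneg (α := ℝ) m)] at hm
    exact (le_abs_self _).trans hm
  filter_upwards [h1] with m hm
  have h2 := Chebyshev.theta_ge m
  have h4 : (0 : ℝ) ≤ m := Nat.cast_nonneg m
  have h5 : 1 / 2 * (m : ℝ) ≤ Chebyshev.theta (m : ℝ) := by nlinarith
  refine h5.trans (le_of_eq ?_)
  unfold Chebyshev.theta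
  rw [Nat.floor_natCast]
  refine Finset.sum_congr ?_ fun _ _ => rfl
  ext p
  simp only [Finset.mem_filter, Finset.mem_Ioc, Finset.mem_range]
  constructor
  · rintro ⟨⟨_, h4⟩, h5⟩
    exact ⟨by omega, h5⟩
  · rintro ⟨h4, h5⟩
    exact ⟨⟨h5.pos, by omega⟩, h5⟩

/-- There is a positive number `c γ` for every `γ > 0`, such that the following holds. Let `K` be a
number field, embedded in `ℂ` by `σ`, let `X` and `Z` be the projective varieties over `K` given by
the forms in `I` and `I'`. The following are equivalent: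
(1) all rational curves in `X` lie in `Z`;
(2) for all number fields `L` over `K`, all `γ > 0`, and all sets `P` of primes with
`∏_{p ∈ P, p ≤ m} p ≥ exp (γ m)` for all large `m`, a sequence of points of `X(L)` outside of `Z`,
with growth `O(exp (c(γ) n))`, which has the period `p` modulo `p` for all `p` in `P`, is constant;
(3) the same for all primes;
(4) for all number fields `L` over `K`, a sequence of points `x n` of `X(L)` outside of `Z`, of
polynomial growth, with `x m = x n` modulo `m - n` for all `m` and `n`, is constant.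

In particular, (2) holds if `X` is hyperbolic (`I' = ⊤`). -/
theorem result : ∃ c : ℝ → ℝ, (∀ γ, 0 < γ → 0 < c γ) ∧
    ∀ (K : Type) [Field K] [NumberField K] (σ : K →+* ℂ) (N : ℕ)
      (I I' : Ideal (MvPolynomial (Fin (N + 1)) K)),
      [RationalCurvesIn σ I I', ∀ γ, 0 < γ → ConstantOfPeriodic γ (c γ) I I',
        ConstantOfPeriodicAll (c (1 / 2)) I I', ConstantOfPolynomial I I'].TFAE ∧
      (Hyperbolic σ I I' → ∀ γ, 0 < γ → ConstantOfPeriodic γ (c γ) I I') := by
  classical
  choose c hc hmain using fun γ : {γ : ℝ // 0 < γ} => eventually_periodic γ γ.2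
  refine ⟨fun γ => if h : 0 < γ then c ⟨γ, h⟩ else 1, fun γ h => ?_, ?_⟩
  · simp only [dif_pos h]
    exact hc _
  intro K _ _ σ N I I'
  have h12 : RationalCurvesIn σ I I' → ∀ γ, 0 < γ →
      ConstantOfPeriodic γ (if h : 0 < γ then c ⟨γ, h⟩ else 1) I I' := by
    intro hrat γ hγ
    rw [dif_pos hγ]
    intro L _ _ _ P q C a hP ha hper hgr
    have hmod : Pool.Agent.H9.PM.ModPrimes P q a := ⟨ha.content, hper⟩
    obtain ⟨k, m0, hk, h1⟩ := hmain ⟨γ, hγ⟩ K σ N I I' hrat L P q C a hP.1 hP.2 ha.ne_zero hmod hgr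
      ha.mem ha.not_mem
    exact const_of_periodic hP.1 (infinite_of_dense hγ hP.2) ha.ne_zero hmod hk h1
  have h23 : (∀ γ, 0 < γ → ConstantOfPeriodic γ (if h : 0 < γ then c ⟨γ, h⟩ else 1) I I') →
      ConstantOfPeriodicAll (if h : 0 < (1 / 2 : ℝ) then c ⟨1 / 2, h⟩ else 1) I I' := by
    intro h L _ _ _ q C a ha hper hgr
    exact h (1 / 2) (by norm_num) L {p | p.Prime} q C a primes_dense ha hper hgr
  have h34 : ConstantOfPeriodicAll (if h : 0 < (1 / 2 : ℝ) then c ⟨1 / 2, h⟩ else 1) I I' →
      ConstantOfPolynomial I I' := by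
    rw [dif_pos (by norm_num : (0 : ℝ) < 1 / 2)]
    have hc1 := hc ⟨1 / 2, by norm_num⟩
    set c1 := c ⟨1 / 2, by norm_num⟩ with hc1def
    intro h L _ _ _ q A C a ha hcong hgr
    have hpoly : ∃ D : ℝ, ∀ n : ℕ, ((n : ℝ) + 1) ^ A ≤ D * Real.exp (c1 * n) := by
      refine ⟨A.factorial * (c1⁻¹) ^ A * Real.exp c1, fun n => ?_⟩
      have h1 := Real.pow_div_factorial_le_exp (c1 * (n + 1)) (by positivity) A
      rw [div_le_iff₀ (by positivity)] at h1
      have h2 : ((n : ℝ) + 1) ^ A = (c1⁻¹) ^ A * (c1 * (n + 1)) ^ A := by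
        rw [← mul_pow, inv_mul_cancel_left₀ hc1.ne']
      rw [h2]
      have h3 : Real.exp (c1 * (n + 1)) = Real.exp (c1 * n) * Real.exp c1 := by
        rw [← Real.exp_add]
        ring_nf
      calc (c1⁻¹) ^ A * (c1 * ((n : ℝ) + 1)) ^ A
          ≤ (c1⁻¹) ^ A * (Real.exp (c1 * (n + 1)) * A.factorial) :=
            mul_le_mul_of_nonneg_left h1 (by positivity)
        _ = A.factorial * (c1⁻¹) ^ A * Real.exp c1 * Real.exp (c1 * n) := by
            rw [h3]
            ring
    obtain ⟨D, hD⟩ := hpoly
    have hC : 0 ≤ C := by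
      have h1 := (house_nonneg _).trans (hgr 0 0)
      simpa using h1
    refine h L q (C * D) a ha (fun p _ n i j => ?_) fun n j => ?_
    · have h1 := hcong (n + p) n i j
      have h2 : ((n + p : ℕ) : 𝓞 L) - (n : ℕ) = p := by push_cast; ring
      rwa [h2] at h1
    · refine (hgr n j).trans ?_
      rw [mul_assoc]
      exact mul_le_mul_of_nonneg_left (hD n) hC
  have h41 : ConstantOfPolynomial I I' → RationalCurvesIn σ I I' := by
    intro h
    have h0 : RatCurvesIn σ I I' := by
      rw [ratCurvesIn_iff]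
      intro p hp
      let _ : Algebra K ℂ := σ.toAlgebra
      have hp1 : RCur ((algebraMap K ℂ).comp (RingHom.id K)) I I' p := hp
      obtain ⟨L, _, _, _, p', hp'⟩ := RCur.spec (k := K) (E := ℂ) (RingHom.id K) hp1
      have hchar : CharZero L := charZero_of_injective_algebraMap (algebraMap K L).injective
      have hfin : FiniteDimensional ℚ L := FiniteDimensional.trans ℚ K L
      have hnf : NumberField L := ⟨⟩
      rw [RingHom.comp_id] at hp'
      obtain ⟨q, A, C, a, h1, h2, h3, h4, h5, h6⟩ := exists_seq_cong (algebraMap K L) hp'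
      exact h6 (h L q A C a ⟨h1, h2.content, h4, h5⟩ h2.cong h3)
    exact h0
  have hhyp : Hyperbolic σ I I' → RationalCurvesIn σ I I' := by
    intro h
    have h0 : PEntireCurvesIn σ I I' := fun f hf hne _ h1 h2 => by
      obtain ⟨z, w, j, k, h3⟩ := h2
      exact h f hf hne h1 ⟨z, w, j, k, h3⟩
    exact rat_of_pentire h0
  refine ⟨?_, fun h => h12 (hhyp h)⟩
  tfae_have 1 → 2 := h12
  tfae_have 2 → 3 := h23
  tfae_have 3 → 4 := h34
  tfae_have 4 → 1 := h41
  tfae_finish

end Pool.Agent.Results.MP_f82ddf_nt.PeriodicModPrimes
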